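import Mathlib
import Pool.Agent.Work.MP_70096d_gt.Johnstone

set_option autoImplicit false

open Set Topology Pool.Agent.Work.MP_70096d_gt

universe u

/-- There is a dcpo `P` with an order-compatible topology that is sober (hence well-filtered)
such that, for every nonempty poset `Q`, the Scott topology of `P × Q` is not well-filtered. -/
theorem Pool.Agent.Results.MP_70096d_gt.CompatibleTopology.result :
    ∃ (P : Type) (_ : PartialOrder P), IsDcpo P ∧
      (∃ t : TopologicalSpace P, Compatible t ∧ Sober t ∧ WellFiltered t) ∧
      ∀ (Q : Type u) [PartialOrder Q] [Nonempty Q], ¬ WellFiltered (scott (P × Q) univ) :=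
  ⟨JT, inferInstance, JT.isDcpo, ⟨JT.tau, JT.compatible_tau, JT.sober_tau,
    JT.sober_tau.wellFiltered⟩, fun _ _ _ h => JT.not_wellFiltered (wellFiltered_fst h)⟩
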