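import Mathlib
import Pool.Agent.Work.MP_70096d_gt.Basic

set_option autoImplicit false

open Set Topology Pool.Agent.Work.MP_70096d_gt

universe u v

/-- For all posets `P`, `Q`: if the Scott spaces of `P` and `Q` are well-filtered, then so is the
Scott space of the product poset `P × Q`; and conversely when `P` and `Q` are nonempty. -/
theorem Pool.Agent.Results.MP_70096d_gt.ScottProduct.result
    (P : Type u) (Q : Type v) [PartialOrder P] [PartialOrder Q] :
    (WellFiltered (scott P univ) → WellFiltered (scott Q univ) →
      WellFiltered (scott (P × Q) univ)) ∧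
    (Nonempty P → Nonempty Q → WellFiltered (scott (P × Q) univ) →
      WellFiltered (scott P univ) ∧ WellFiltered (scott Q univ)) :=
  ⟨wellFiltered_prod, fun _ _ h => ⟨wellFiltered_fst h, wellFiltered_snd h⟩⟩
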